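import Pool.Agent.E8helper59.PN.Stm

/-!
# Project PN, piece S_AFF: affine invariance
-/

set_option autoImplicit false
open Set
open scoped Pointwise

namespace Pool.Agent.E8helper40.PN

open Pool.Agent.E8helper59.PN

theorem gauge_lin {n : ℕ} (G : Set (Fin n → ℝ)) (L : (Fin n → ℝ) ≃ₗ[ℝ] (Fin n → ℝ))
    (z : Fin n → ℝ) : gauge G (L z) = gauge (L.symm '' G) z := by
  unfold gauge
  congr 1
  ext r
  constructor
  · rintro ⟨hr, g, hg, hgz⟩
    refine ⟨hr, L.symm g, ⟨g, hg, rfl⟩, ?_⟩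
    show r • L.symm g = z
    have h1 : r • g = L z := hgz
    rw [← map_smul, h1, LinearEquiv.symm_apply_apply]
  · rintro ⟨hr, g', ⟨g, hg, rfl⟩, hgz⟩
    refine ⟨hr, g, hg, ?_⟩
    show r • g = L z
    have h1 : r • L.symm g = z := hgz
    rw [← h1, map_smul, LinearEquiv.apply_symm_apply]

theorem gauge_aff {n : ℕ} (G : Set (Fin n → ℝ)) (T : (Fin n → ℝ) ≃ᵃ[ℝ] (Fin n → ℝ))
    (x y : Fin n → ℝ) : gauge G (T x - T y) = gauge (T.linear.symm '' G) (x - y) := by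
  rw [← gauge_lin]
  congr 1
  have h := T.toAffineMap.linearMap_vsub x y
  simp only [vsub_eq_sub] at h
  exact h.symm

theorem Dm_aff {n : ℕ} (G C : Set (Fin n → ℝ)) (T : (Fin n → ℝ) ≃ᵃ[ℝ] (Fin n → ℝ)) :
    Dm G (T '' C) = Dm (T.linear.symm '' G) C := by
  unfold Dm
  congr 1
  ext r
  constructor
  · rintro ⟨⟨a, b⟩, ⟨⟨x, hx, hxa⟩, ⟨y, hy, hyb⟩⟩, hr⟩
    refine ⟨(x, y), ⟨hx, hy⟩, ?_⟩
    have hxa' : T x = a := hxa
    have hyb' : T y = b := hyb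
    rw [← hr]
    show gauge (T.linear.symm '' G) (x - y) = gauge G (a - b)
    rw [← gauge_aff, hxa', hyb']
  · rintro ⟨⟨x, y⟩, ⟨hx, hy⟩, hr⟩
    refine ⟨(T x, T y), ⟨⟨x, hx, rfl⟩, ⟨y, hy, rfl⟩⟩, ?_⟩
    rw [← hr]
    exact gauge_aff G T x y

/-- PN2. Affine invariance. -/
theorem t_AFF : S_AFF := by
  intro n k G C T
  constructor
  · rintro ⟨A, hA, hc⟩
    refine ⟨fun i => T ⁻¹' (A i), ?_, fun i => ?_⟩
    · rw [← preimage_iUnion, hA, preimage_image_eq _ T.injective]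
    · obtain ⟨c, hcD, h⟩ := hc i
      refine ⟨c, by rwa [← Dm_aff], fun x hx y hy => ?_⟩
      rw [← gauge_aff]
      exact h _ hx _ hy
  · rintro ⟨A, hA, hc⟩
    refine ⟨fun i => T '' (A i), ?_, fun i => ?_⟩
    · rw [← image_iUnion, hA]
    · obtain ⟨c, hcD, h⟩ := hc i
      refine ⟨c, by rwa [Dm_aff], ?_⟩
      rintro _ ⟨x, hx, rfl⟩ _ ⟨y, hy, rfl⟩
      rw [gauge_aff]
      exact h _ hx _ hy

end Pool.Agent.E8helper40.PN
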