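import Pool.Agent.E8helper59.PN.Stm

/-!
# Project PN, piece S_VW
-/

set_option autoImplicit false
open Set
open scoped Pointwise

namespace Pool.Agent.E8helper40.PN

open Pool.Agent.E8helper59.PN

theorem zero_int {n : ℕ} (G : Set (Fin n → ℝ)) (hG : Body G) (hs : ∀ x ∈ G, -x ∈ G) :
    (0 : Fin n → ℝ) ∈ interior G := by
  obtain ⟨x, hx⟩ := hG.2.2
  have h := hG.2.1.combo_interior_self_mem_interior hx (hs x (interior_subset hx))
    (show (0 : ℝ) < 1 / 2 by norm_num) (show (0 : ℝ) ≤ 1 / 2 by norm_num) (by norm_num)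
  have h0 : (1 / 2 : ℝ) • x + (1 / 2 : ℝ) • (-x) = 0 := by
    rw [smul_neg, add_neg_cancel]
  rwa [h0] at h

theorem gauge_bd {n : ℕ} (G : Set (Fin n → ℝ)) (hG : Body G) (hs : ∀ x ∈ G, -x ∈ G) :
    ∃ r : ℝ, 0 < r ∧ ∀ z : Fin n → ℝ, gauge G z ≤ ‖z‖ / r := by
  have h0 := zero_int G hG hs
  obtain ⟨r, hr, hb⟩ := Metric.isOpen_iff.1 isOpen_interior _ h0
  refine ⟨r, hr, fun z => ?_⟩
  rw [le_div_iff₀ hr, mul_comm]
  exact mul_gauge_le_norm (hb.trans interior_subset)

theorem gauge_tri {n : ℕ} (G : Set (Fin n → ℝ)) (hG : Body G) (hs : ∀ x ∈ G, -x ∈ G)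
    (x y : Fin n → ℝ) : gauge G (x + y) ≤ gauge G x + gauge G y :=
  gauge_add_le hG.2.1 (absorbent_nhds_zero (mem_interior_iff_mem_nhds.1 (zero_int G hG hs))) x y

theorem gauge_abs {n : ℕ} (G : Set (Fin n → ℝ)) (hs : ∀ x ∈ G, -x ∈ G)
    (c : ℝ) (x : Fin n → ℝ) : gauge G (c • x) = |c| * gauge G x := by
  rcases le_total 0 c with h | h
  · rw [gauge_smul_of_nonneg h, abs_of_nonneg h, smul_eq_mul]
  · rw [← gauge_neg hs, ← neg_smul, gauge_smul_of_nonneg (neg_nonneg.2 h), abs_of_nonpos h,
      smul_eq_mul]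

theorem cube_norm {n : ℕ} (x y : Fin n → ℝ) (hx : x ∈ Cube n) (hy : y ∈ Cube n) :
    ‖x - y‖ ≤ 1 := by
  rw [pi_norm_le_iff_of_nonneg (by norm_num)]
  intro i
  have h1 := hx i
  have h2 := hy i
  rw [mem_Icc] at h1 h2
  rw [Pi.sub_apply, Real.norm_eq_abs, abs_le]
  constructor <;> linarith [h1.1, h1.2, h2.1, h2.2]

theorem le_Dm {n : ℕ} (G : Set (Fin n → ℝ)) (hG : Body G) (hs : ∀ x ∈ G, -x ∈ G)
    (x y : Fin n → ℝ) (hx : x ∈ Cube n) (hy : y ∈ Cube n) : gauge G (x - y) ≤ Dm G (Cube n) := by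
  obtain ⟨r, hr, hb⟩ := gauge_bd G hG hs
  unfold Dm
  apply le_csSup
  · refine ⟨1 / r, ?_⟩
    rintro _ ⟨⟨a, b⟩, ⟨ha, hb'⟩, rfl⟩
    refine (hb _).trans ?_
    exact div_le_div_of_nonneg_right (cube_norm a b ha hb') hr.le
  · exact ⟨(x, y), ⟨hx, hy⟩, rfl⟩

theorem le_Dm' {n : ℕ} (G : Set (Fin n → ℝ)) (hG : Body G) (hs : ∀ x ∈ G, -x ∈ G)
    (z : Fin n → ℝ) (hz : ∀ i, |z i| ≤ 1) : gauge G z ≤ Dm G (Cube n) := by
  have h : z = (fun i => max (z i) 0) - (fun i => max (-z i) 0) := by
    funext i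
    rw [Pi.sub_apply]
    exact (max_zero_sub_max_neg_zero_eq_self (z i)).symm
  rw [h]
  apply le_Dm G hG hs
  · intro i
    have := abs_le.1 (hz i)
    rw [mem_Icc]
    exact ⟨le_max_right _ _, max_le this.2 (by norm_num)⟩
  · intro i
    have := abs_le.1 (hz i)
    rw [mem_Icc]
    exact ⟨le_max_right _ _, max_le (by linarith [this.1]) (by norm_num)⟩

/-- scaled version -/
theorem le_Dm_c {n : ℕ} (G : Set (Fin n → ℝ)) (hG : Body G) (hs : ∀ x ∈ G, -x ∈ G) (c : ℝ)
    (hc : 0 < c) (z : Fin n → ℝ) (hz : ∀ i, |z i| ≤ c) : gauge G z ≤ c * Dm G (Cube n) := by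
  have h : z = c • (c⁻¹ • z) := by rw [smul_smul, mul_inv_cancel₀ hc.ne', one_smul]
  rw [h, gauge_abs G hs, abs_of_pos hc]
  apply mul_le_mul_of_nonneg_left _ hc.le
  apply le_Dm' G hG hs
  intro i
  rw [Pi.smul_apply, smul_eq_mul, abs_mul, abs_of_pos (inv_pos.2 hc), inv_mul_le_iff₀ hc, mul_one]
  exact hz i

def near {n : ℕ} (e : ℝ) (r : Fin n → Bool) (x : Fin n → ℝ) : Prop := ∀ i, |x i - vx r i| ≤ 1 - e

theorem vx_flip {n : ℕ} (r r' : Fin n → Bool) (i : Fin n) (h : r' i = !(r i)) :
    vx r' i = 1 - vx r i := by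
  unfold vx
  rw [h]
  cases r i <;> simp

theorem vx_eq {n : ℕ} (r r' : Fin n → Bool) (i : Fin n) (h : r' i = r i) :
    vx r' i = vx r i := by
  unfold vx
  rw [h]

theorem vx01 {n : ℕ} (r : Fin n → Bool) (i : Fin n) : vx r i = 0 ∨ vx r i = 1 := by
  unfold vx
  cases r i <;> simp

theorem seg_aux {n : ℕ} (e : ℝ) (he : 0 < e) (he2 : e ≤ 1 / 2) (u w : Fin n → Bool)
    (x : Fin n → ℝ) (hx : x ∈ Cube n) (hnn : ∀ r, r ≠ u → r ≠ w → ¬ near e r x)
    (hr : ∀ i, |x i - vx u i| ≤ 1 / 2) :
    ∃ s : ℝ, 0 ≤ s ∧ s ≤ 1 ∧ ∀ i, |x i - (vx w i + s * (vx u i - vx w i))| ≤ e := by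
  have key : ∀ i, Function.update u i (!(u i)) ≠ w → |x i - vx u i| ≤ e := by
    intro i hi
    have h1 : Function.update u i (!(u i)) ≠ u := by
      intro h
      have := congrFun h i
      simp at this
    have h2 := hnn _ h1 hi
    unfold near at h2
    push Not at h2
    obtain ⟨j, hj⟩ := h2
    by_cases hji : j = i
    · subst hji
      rw [vx_flip u _ j (by simp)] at hj
      have hxj := hx j
      rw [mem_Icc] at hxj
      rcases vx01 u j with h | h
      · rw [h] at hj ⊢
        rw [abs_of_nonpos (by linarith [hxj.2])] at hj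
        rw [abs_of_nonneg (by linarith [hxj.1])]
        linarith
      · rw [h] at hj ⊢
        rw [abs_of_nonneg (by linarith [hxj.1])] at hj
        rw [abs_of_nonpos (by linarith [hxj.2])]
        linarith
    · exfalso
      rw [vx_eq u _ j (by simp [Function.update_of_ne hji])] at hj
      have := hr j
      linarith
  by_cases hall : ∀ i, Function.update u i (!(u i)) ≠ w
  · refine ⟨1, by norm_num, le_refl _, fun i => ?_⟩
    have := key i (hall i)
    have h3 : vx w i + 1 * (vx u i - vx w i) = vx u i := by ring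
    rw [h3]
    exact this
  · push Not at hall
    obtain ⟨i0, h0⟩ := hall
    have hxi := hx i0
    rw [mem_Icc] at hxi
    have hw0 : vx w i0 = 1 - vx u i0 := by
      apply vx_flip
      rw [← h0]
      simp
    have hoth : ∀ i, i ≠ i0 → |x i - (vx u i)| ≤ e ∧ vx w i = vx u i := by
      intro i hi
      have hwi : w i = u i := by
        rw [← h0]
        exact Function.update_of_ne hi _ _
      refine ⟨key i ?_, vx_eq _ _ _ hwi⟩
      intro h
      have h4 := congrFun h i
      rw [hwi] at h4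
      simp at h4
    rcases vx01 u i0 with h | h
    · refine ⟨1 - x i0, by linarith [hxi.2], by linarith [hxi.1], fun i => ?_⟩
      by_cases hi : i = i0
      · subst hi
        rw [hw0, h]
        have h5 : x i - (1 - 0 + (1 - x i) * (0 - (1 - 0))) = 0 := by ring
        rw [h5, abs_zero]
        exact he.le
      · obtain ⟨h6, h7⟩ := hoth i hi
        rw [h7]
        have h5 : vx u i + (1 - x i0) * (vx u i - vx u i) = vx u i := by ring
        rw [h5]
        exact h6
    · refine ⟨x i0, by linarith [hxi.1], by linarith [hxi.2], fun i => ?_⟩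
      by_cases hi : i = i0
      · subst hi
        rw [hw0, h]
        have h5 : x i - (1 - 1 + x i * (1 - (1 - 1))) = 0 := by ring
        rw [h5, abs_zero]
        exact he.le
      · obtain ⟨h6, h7⟩ := hoth i hi
        rw [h7]
        have h5 : vx u i + x i0 * (vx u i - vx u i) = vx u i := by ring
        rw [h5]
        exact h6

theorem seg {n : ℕ} (e : ℝ) (he : 0 < e) (he2 : e ≤ 1 / 2) (u w : Fin n → Bool)
    (x : Fin n → ℝ) (hx : x ∈ Cube n) (hnn : ∀ r, r ≠ u → r ≠ w → ¬ near e r x) :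
    ∃ s : ℝ, 0 ≤ s ∧ s ≤ 1 ∧ ∀ i, |x i - (vx w i + s * (vx u i - vx w i))| ≤ e := by
  classical
  have hr : ∀ i, |x i - vx (fun i => decide (1 / 2 ≤ x i)) i| ≤ 1 / 2 := by
    intro i
    have hxi := hx i
    rw [mem_Icc] at hxi
    unfold vx
    by_cases h : 1 / 2 ≤ x i
    · simp only [h, decide_true, if_true]
      rw [abs_le]
      constructor <;> linarith [hxi.2]
    · simp only [h, decide_false]
      push Not at h
      rw [abs_le]
      constructor
      · simp
        linarith [hxi.1]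
      · simp
        linarith
  have hnear : near e (fun i => decide (1 / 2 ≤ x i)) x := by
    intro i
    have := hr i
    linarith
  by_cases h1 : (fun i => decide (1 / 2 ≤ x i)) = u
  · rw [h1] at hr
    exact seg_aux e he he2 u w x hx hnn hr
  · by_cases h2 : (fun i => decide (1 / 2 ≤ x i)) = w
    · rw [h2] at hr
      obtain ⟨s, h3, h4, h5⟩ := seg_aux e he he2 w u x hx (fun r ha hb => hnn r hb ha) hr
      refine ⟨1 - s, by linarith, by linarith, fun i => ?_⟩
      have h6 := h5 i
      have h7 : vx w i + (1 - s) * (vx u i - vx w i) = vx u i + s * (vx w i - vx u i) := by ring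
      rw [h7]
      exact h6
    · exact absurd hnear (hnn _ h1 h2)

/-- PN4. -/
theorem t_VW : S_VW := by
  classical
  intro n G u w hn hG hs huw hlt
  obtain ⟨D, hD⟩ : ∃ D, D = Dm G (Cube n) := ⟨_, rfl⟩
  obtain ⟨g, hg⟩ : ∃ g, g = gauge G (vx u - vx w) := ⟨_, rfl⟩
  have hg0 : 0 ≤ g := by rw [hg]; exact gauge_nonneg _
  rw [← hD, ← hg] at hlt
  have hD0 : 0 < D := lt_of_le_of_lt hg0 hlt
  obtain ⟨e, he⟩ : ∃ e, e = (D - g) / (4 * D) := ⟨_, rfl⟩
  have he0 : 0 < e := by
    rw [he]
    exact div_pos (by linarith) (by linarith)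
  have heD : 4 * (e * D) = D - g := by
    rw [he]
    field_simp
  have he2 : e ≤ 1 / 2 := by
    by_contra hcon
    push Not at hcon
    have : (1 / 2) * D < e * D := mul_lt_mul_of_pos_right hcon hD0
    linarith
  have hcard : Fintype.card {r : Fin n → Bool // r ≠ w} = 2 ^ n - 1 := by
    rw [Fintype.card_subtype_compl]
    simp
  let E := (Fintype.equivFinOfCardEq hcard).symm
  let B : (Fin n → Bool) → Set (Fin n → ℝ) := fun r =>
    if r = u then {x | x ∈ Cube n ∧ ∀ r, r ≠ u → r ≠ w → ¬ near e r x}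
    else {x | x ∈ Cube n ∧ near e r x}
  have hBu : B u = {x | x ∈ Cube n ∧ ∀ r, r ≠ u → r ≠ w → ¬ near e r x} := if_pos rfl
  have hBr : ∀ r, r ≠ u → B r = {x | x ∈ Cube n ∧ near e r x} := fun r hr => if_neg hr
  refine ⟨fun i => B (E i).1, ?_, fun i => ?_⟩
  · ext x
    rw [mem_iUnion]
    constructor
    · rintro ⟨i, hi⟩
      by_cases hu : (E i).1 = u
      · rw [hu, hBu] at hi
        exact hi.1
      · rw [hBr _ hu] at hi
        exact hi.1
    · intro hx
      by_cases hex : ∃ r, r ≠ u ∧ r ≠ w ∧ near e r x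
      · obtain ⟨r, hru, hrw, hr⟩ := hex
        refine ⟨E.symm ⟨r, hrw⟩, ?_⟩
        rw [E.apply_symm_apply, hBr r hru]
        exact ⟨hx, hr⟩
      · push Not at hex
        refine ⟨E.symm ⟨u, huw⟩, ?_⟩
        rw [E.apply_symm_apply, hBu]
        exact ⟨hx, hex⟩
  · by_cases hu : (E i).1 = u
    · refine ⟨g + 2 * e * D, ?_, ?_⟩
      · rw [← hD]
        linarith
      · intro x hx y hy
        simp only [hu, hBu] at hx hy
        obtain ⟨s, hs0, hs1, hs2⟩ := seg e he0 he2 u w x hx.1 hx.2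
        obtain ⟨t, ht0, ht1, ht2⟩ := seg e he0 he2 u w y hy.1 hy.2
        have hdec : x - y = (s - t) • (vx u - vx w) +
            fun i => (x i - (vx w i + s * (vx u i - vx w i))) -
              (y i - (vx w i + t * (vx u i - vx w i))) := by
          funext i
          simp only [Pi.sub_apply, Pi.add_apply, Pi.smul_apply, smul_eq_mul]
          ring
        rw [hdec]
        refine (gauge_tri G hG hs _ _).trans ?_
        apply add_le_add
        · rw [gauge_abs G hs, ← hg]
          have : |s - t| ≤ 1 := by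
            rw [abs_le]
            constructor <;> linarith
          exact mul_le_of_le_one_left hg0 this
        · have := le_Dm_c G hG hs (2 * e) (by linarith)
            (fun i => (x i - (vx w i + s * (vx u i - vx w i))) -
              (y i - (vx w i + t * (vx u i - vx w i)))) (fun i => by
                refine (abs_sub _ _).trans ?_
                linarith [hs2 i, ht2 i])
          rw [← hD] at this
          exact this
    · refine ⟨(1 - e) * D, ?_, ?_⟩
      · rw [← hD]
        have : 0 < e * D := mul_pos he0 hD0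
        linarith
      · intro x hx y hy
        simp only [hBr _ hu] at hx hy
        have := le_Dm_c G hG hs (1 - e) (by linarith) (x - y) (fun j => by
          have h1 := abs_le.1 (hx.2 j)
          have h2 := abs_le.1 (hy.2 j)
          have h3 := hx.1 j
          have h4 := hy.1 j
          rw [mem_Icc] at h3 h4
          rw [Pi.sub_apply, abs_le]
          rcases vx01 (E i).1 j with h | h
          · rw [h] at h1 h2
            constructor <;> linarith [h1.1, h1.2, h2.1, h2.2, h3.1, h3.2, h4.1, h4.2]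
          · rw [h] at h1 h2
            constructor <;> linarith [h1.1, h1.2, h2.1, h2.2, h3.1, h3.2, h4.1, h4.2])
        rw [← hD] at this
        exact this

end Pool.Agent.E8helper40.PN
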